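import Pool.Agent.W662.CB.Stmts

set_option autoImplicit false

open MeasureTheory Filter Topology Complex
open scoped InnerProductSpace ENNReal

namespace Pool.Agent.W922.CB

open Pool.Agent.W662.CB

noncomputable section

/-- identity theorem on the real axis -/
theorem const_of_real (q : ℂ → ℂ) (hq : Differentiable ℂ q) (c : ℂ) (h : ∀ t : ℝ, q t = c)
    (z : ℂ) : q z = c := by
  have h1 : AnalyticOnNhd ℂ q Set.univ := fun w _ => hq.analyticAt w
  have h2 : AnalyticOnNhd ℂ (fun _ : ℂ => c) Set.univ := fun w _ => analyticAt_const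
  have h3 : Tendsto (fun n : ℕ => ((1 / ((n : ℝ) + 1) : ℝ) : ℂ)) atTop (𝓝[≠] 0) := by
    rw [tendsto_nhdsWithin_iff]
    constructor
    · have := (Complex.continuous_ofReal.tendsto 0).comp
        (tendsto_one_div_add_atTop_nhds_zero_nat (𝕜 := ℝ))
      rw [Complex.ofReal_zero] at this
      exact this
    · filter_upwards with n
      have : (1 / ((n : ℝ) + 1) : ℝ) ≠ 0 := by positivity
      exact Complex.ofReal_ne_zero.2 this
  have h4 : ∃ᶠ w in 𝓝[≠] (0:ℂ), q w = (fun _ : ℂ => c) w := by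
    apply h3.frequently
    exact Frequently.of_forall fun n => h _
  have h5 := h1.eq_of_frequently_eq h2 h4
  exact congrFun h5 z

section

variable {H K : Type} [NormedAddCommGroup H] [InnerProductSpace ℂ H] [CompleteSpace H]
  [NormedAddCommGroup K] [InnerProductSpace ℂ K] [CompleteSpace K]

theorem diff_q (E : ℂ → K →L[ℂ] K) (hE : Differentiable ℂ E) (A Q B : K →L[ℂ] K) (x y : K) :
    Differentiable ℂ (fun z : ℂ => ⟪x, (A * E (-z) * Q * E z * B) y⟫_ℂ) := by
  have hd : Differentiable ℂ (fun z : ℂ => A * E (-z) * Q * E z * B) :=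
    (((((differentiable_const A).mul (hE.comp differentiable_neg)).mul
      (differentiable_const Q)).mul hE).mul (differentiable_const B))
  exact (innerSL ℂ x).differentiable.comp (hd.clm_apply (differentiable_const y))

theorem inner_left' (A : K →L[ℂ] K) (x y : K) : ⟪x, A y⟫_ℂ = ⟪star A x, y⟫_ℂ := by
  rw [ContinuousLinearMap.star_eq_adjoint, ContinuousLinearMap.adjoint_inner_left]

end

theorem b4 (h1 : S_B1) : S_B4 := by
  intro H K _ _ _ _ _ _ M ξ U κ V J E T δ hM hB Q hQ hQ0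
  have hV := (h1 H K M ξ U κ V J E T δ hM hB).1
  have hVV : ∀ (t : ℝ) (x y : K), ⟪V t x, V t y⟫_ℂ = ⟪x, y⟫_ℂ := by
    intro t x y
    rw [inner_left', hB.V_star, ← mul_apply_eq_comp, ← hB.V_add]
    simp [hB.V_zero]
  have hQV : ∀ (t : ℝ) (x : K), Q (V t x) = V t (Q x) := fun t x =>
    congrArg (fun A : K →L[ℂ] K => A x) (hQ t)
  have hVE : ∀ (t : ℝ) (z : ℂ) (x : K), V t (E z x) = E z (V t x) := fun t z x =>
    congrArg (fun A : K →L[ℂ] K => A x) (hB.V_E t z)
  have hEE : ∀ (z w : ℂ) (x : K), E z (E w x) = E (z + w) x := fun z w x => by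
    rw [hB.E_add]; rfl
  set ζ := J ξ with hζ
  have hs2 : star (E (-I / 2)) = E (-I / 2) := by
    rw [hB.E_star]
    have e2 : starRingEnd ℂ 2 = 2 := Complex.conj_eq_iff_im.2 (by simp)
    have e0 : starRingEnd ℂ (-I / 2) = I / 2 := by
      rw [map_div₀, map_neg, Complex.conj_I, e2, neg_neg]
    rw [e0]
    congr 1
    ring
  have hs1 : star (E (-I)) = E (-I) := by
    rw [hB.E_star]
    congr 1
    simp
  have hst : ∀ t : ℝ, star (E (-(t : ℂ))) = E t := by
    intro t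
    rw [hB.E_star]
    congr 1
    simp
  constructor
  · have hc := const_of_real _ (diff_q E hB.E_diff 1 Q (E (-I)) ζ ζ) ⟪ζ, Q (E (-I) ζ)⟫_ℂ
      (fun t => by
        show ⟪ζ, E (-(t : ℂ)) (Q (E t (E (-I) ζ)))⟫_ℂ = _
        rw [inner_left', hst, hEE, add_comm, ← hEE, ← hV t, ← hVE, hQV, hVV]) (I / 2)
    rw [← hc]
    show _ = ⟪ζ, E (-(I / 2)) (Q (E (I / 2) (E (-I) ζ)))⟫_ℂ
    have e1 : -(I / 2) = -I / 2 := by ring
    rw [e1, inner_left' (E (-I / 2)), hs2, hEE]
    congr 3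
    ring_nf
  · have hc := const_of_real _ (diff_q E hB.E_diff (E (-I)) Q 1 ζ ζ) ⟪E (-I) ζ, Q ζ⟫_ℂ
      (fun t => by
        show ⟪ζ, E (-I) (E (-(t : ℂ)) (Q (E t ζ)))⟫_ℂ = _
        rw [inner_left', hs1, inner_left', hst, hEE, add_comm, ← hEE, ← hV t, ← hVE, hQV, hVV])
      (-I / 2)
    rw [← hc]
    show _ = ⟪ζ, E (-I) (E (-(-I / 2)) (Q (E (-I / 2) ζ)))⟫_ℂ
    rw [hEE]
    have e1 : -I + -(-I / 2) = -I / 2 := by ring
    rw [e1, inner_left' (E (-I / 2)), hs2]

end

end Pool.Agent.W922.CB
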